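import Pool.Agent.Work.MP_14f078_nt_h99.Final

/-!
Assertion (c) on the numbers `a_n` at the primes 2 and 3, including the exceptional clause.
-/

set_option autoImplicit false

namespace Pool.Agent.Results.MP_14f078_nt.PrimesTwoThree

open Pool.Agent.Work.Ram260

/-- For `n ≥ 2` the denominator of `a n` is odd. It is prime to `3` unless `2 n + 1` is a power
of `3`, and in that case the denominator and the numerator of `3 a n` are prime to `3`. -/
theorem result (n : ℕ) (hn : 2 ≤ n) :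
    ¬ 2 ∣ (a n).den ∧
    ((¬ ∃ r : ℕ, 2 * n + 1 = 3 ^ r) → ¬ 3 ∣ (a n).den) ∧
    ((∃ r : ℕ, 2 * n + 1 = 3 ^ r) → ¬ 3 ∣ (3 * a n).den ∧ ¬ (3 : ℤ) ∣ (3 * a n).num) :=
  ⟨main_two n hn, main_three n hn, main_exc n hn⟩

end Pool.Agent.Results.MP_14f078_nt.PrimesTwoThree
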